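import Pool.Agent.H.MP_0ec261_nt.Fin1

/-!
The Jacobi symbol of the problem takes the values `1` and `-1` equally often among the
representations of `n`, for almost all `n`, with an explicit error term.
-/

namespace Pool.Agent.Results.MP_0ec261_nt.AlmostAllEquidistributed

/-- `q` is a prime with `2 q ≤ n` such that `n - 2 q` (for odd `n`), respectively `n - q`
(for even `n`), is an odd prime. -/
def IsRep (n q : ℕ) : Prop :=
  q.Prime ∧ 2 * q ≤ n ∧ ((Odd n ∧ (n - 2 * q).Prime ∧ n - 2 * q ≠ 2) ∨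
    (Even n ∧ (n - q).Prime ∧ n - q ≠ 2))

/-- The Jacobi symbol of the problem: `(q / n)` for odd `n`, `(((q + 1) / 2) / (n + 1))` for even `n`. -/
noncomputable def symbol (n q : ℕ) : ℤ :=
  if Odd n then jacobiSym (q : ℤ) n else jacobiSym (((q + 1) / 2 : ℕ) : ℤ) (n + 1)

/-- The number of representations of `n`, without the condition on the symbol. -/
noncomputable def r (n : ℕ) : ℕ := {q : ℕ | IsRep n q}.ncard

/-- The function `a(n)` of the problem. -/
noncomputable def a (n : ℕ) : ℕ := {q : ℕ | IsRep n q ∧ symbol n q = 1}.ncard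

open Pool.Agent.H.MP_0ec261_nt in
lemma r_eq (n : ℕ) : r n = rN n := by
  classical
  unfold r rN
  rw [← Set.ncard_coe_finset]
  congr 1
  ext q
  simp only [Set.mem_ofPred_eq, Finset.coe_filter, Finset.mem_range]
  constructor
  · intro h
    have h1 := h.2.1
    exact ⟨by omega, h⟩
  · exact fun h => h.2

open Pool.Agent.H.MP_0ec261_nt in
lemma a_eq (n : ℕ) : a n = aN n := by
  classical
  unfold a aN
  rw [← Set.ncard_coe_finset]
  congr 1
  ext q
  simp only [Set.mem_ofPred_eq, Finset.coe_filter, Finset.mem_range]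
  constructor
  · intro h
    have h1 := h.1.2.1
    exact ⟨by omega, h⟩
  · exact fun h => h.2

/-- For all large `N`, all but at most `N exp (-√(log N) / 200)` of the integers `1 ≤ n ≤ N` satisfy
`|2 a(n) - r(n)| ≤ N exp (-√(log N) / 200)`. -/
theorem result : ∃ N₀ : ℕ, ∀ N : ℕ, N₀ ≤ N →
    (({n : ℕ | 1 ≤ n ∧ n ≤ N ∧
      (N : ℝ) * Real.exp (-(Real.sqrt (Real.log N) / 200)) < |2 * (a n : ℝ) - (r n : ℝ)|}.ncard : ℕ) : ℝ) ≤
      N * Real.exp (-(Real.sqrt (Real.log N) / 200)) := by
  classical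
  obtain ⟨N₀, h⟩ := Pool.Agent.H.MP_0ec261_nt.almost_all
  refine ⟨N₀, fun N hN => ?_⟩
  refine le_trans (le_of_eq ?_) (h N hN)
  congr 1
  rw [← Set.ncard_coe_finset]
  congr 1
  ext n
  simp only [Set.mem_ofPred_eq, Finset.coe_filter, Finset.mem_Icc, r_eq, a_eq, and_assoc]

end Pool.Agent.Results.MP_0ec261_nt.AlmostAllEquidistributed
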