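import Pool.Agent.H.MP_0ec261_nt.AP.Fin3
import Pool.Agent.H.MP_0ec261_nt.AP.Vb

/-!
Every large `n` has many representations as in the problem, with the symbol condition, in which the two
primes are replaced by integers without prime factors `ℓ`, `ℓ ^ R ≤ n`, and `q ≤ H`, for every `H` from
`n ^ (1 / 2 + δ)` to `n / 2` (`R > 26 / δ`).
-/

namespace Pool.Agent.Results.MP_0ec261_nt.AlmostPrimes

/-- The Jacobi symbol of the problem: `(q / n)` for odd `n`, `(((q + 1) / 2) / (n + 1))` for even `n`. -/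
noncomputable def symbol (n q : ℕ) : ℤ :=
  if Odd n then jacobiSym (q : ℤ) n else jacobiSym (((q + 1) / 2 : ℕ) : ℤ) (n + 1)

/-- The number `p` of the problem: `n - 2 q` for odd `n`, `n - q` for even `n`. -/
def partner (n q : ℕ) : ℕ := if Odd n then n - 2 * q else n - q

/-- Let `0 < δ < 1 / 2` and `R > 26 / δ`. For every large `n` and every `H` with
`n ^ (1 / 2 + δ) ≤ H ≤ n / 2` there are at least `c H / (log n) ^ 2` integers `q ≤ H` with symbol `1`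
such that `q > 1`, `p > 1` and every prime factor `ℓ` of `p` or `q` satisfies `ℓ ^ R > n`. -/
theorem result : ∀ δ : ℝ, 0 < δ → δ < 1 / 2 → ∀ R : ℕ, 26 < δ * R →
    ∃ c : ℝ, 0 < c ∧ ∃ n₀ : ℕ, ∀ n H : ℕ, n₀ ≤ n → (n : ℝ) ^ (1 / 2 + δ) ≤ H → 2 * H ≤ n →
      c * H / (Real.log n) ^ 2 ≤
        (({q : ℕ | 1 < q ∧ 1 < partner n q ∧ q ≤ H ∧ symbol n q = 1 ∧
          ∀ ℓ : ℕ, ℓ.Prime → ℓ ∣ q * partner n q → n < ℓ ^ R}.ncard : ℕ) : ℝ) :=
  fun δ h0 h1 R hR => Pool.Agent.H.MP_0ec261_nt.AP.main3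
    (fun _ _ h1 h2 => Pool.Agent.H.MP_0ec261_nt.AP.wv h1 h2) δ h0 h1.le R hR

end Pool.Agent.Results.MP_0ec261_nt.AlmostPrimes
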