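import Pool.Agent.H.MP_0ec261_nt.SP.Sj
import Pool.Agent.H.MP_0ec261_nt.SP.Fj

/-!
A positive proportion of the odd and of the even numbers has a representation as in the problem with
a prime `q` of the smallest possible order of magnitude.
-/

namespace Pool.Agent.Results.MP_0ec261_nt.SmallPrimes

/-- `q` is a prime with `2 q ≤ n` such that `n - 2 q` (for odd `n`), respectively `n - q`
(for even `n`), is an odd prime. -/
def IsRep (n q : ℕ) : Prop :=
  q.Prime ∧ 2 * q ≤ n ∧ ((Odd n ∧ (n - 2 * q).Prime ∧ n - 2 * q ≠ 2) ∨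
    (Even n ∧ (n - q).Prime ∧ n - q ≠ 2))

/-- The Jacobi symbol of the problem: `(q / n)` for odd `n`, `(((q + 1) / 2) / (n + 1))` for even `n`. -/
noncomputable def symbol (n q : ℕ) : ℤ :=
  if Odd n then jacobiSym (q : ℤ) n else jacobiSym (((q + 1) / 2 : ℕ) : ℤ) (n + 1)

/-- At least `c N` odd `n ≤ N` have a representation as in the problem, with symbol `1`, in which
`q ≤ 100 log N log log N`, and at least `c N` even `n ≤ N` have one in which
`q ≤ C log N log log N`. -/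
theorem result : ∃ C c : ℝ, 0 < c ∧ ∃ N₀ : ℕ, ∀ N : ℕ, N₀ ≤ N →
    c * N ≤ (({n : ℕ | n ≤ N ∧ Odd n ∧ ∃ q : ℕ,
      (q : ℝ) ≤ 100 * Real.log N * Real.log (Real.log N) ∧
      IsRep n q ∧ symbol n q = 1}.ncard : ℕ) : ℝ) ∧
    c * N ≤ (({n : ℕ | n ≤ N ∧ Even n ∧ ∃ q : ℕ,
      (q : ℝ) ≤ C * Real.log N * Real.log (Real.log N) ∧
      IsRep n q ∧ symbol n q = 1}.ncard : ℕ) : ℝ) := by
  classical
  obtain ⟨c, hc, N₀, h⟩ := Pool.Agent.H.MP_0ec261_nt.SP.small
  obtain ⟨D, c', hc', N₀', h'⟩ := Pool.Agent.H.MP_0ec261_nt.SP.small_even_sharp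
  refine ⟨D, min c c', lt_min hc hc', max N₀ N₀', fun N hN => ⟨?_, ?_⟩⟩
  · have h0 : min c c' * N ≤ c * N := mul_le_mul_of_nonneg_right (min_le_left _ _) (by positivity)
    refine h0.trans ((h N ((le_max_left _ _).trans hN)).trans ?_)
    rw [← Set.ncard_coe_finset]
    refine Nat.cast_le.2 (Set.ncard_le_ncard ?_ ((Set.finite_Iic N).subset fun n hn => hn.1))
    intro n hn
    rw [Finset.mem_coe, Finset.mem_filter, Finset.mem_range] at hn
    obtain ⟨h1, h2, q, h3, h4, h5, h6, h7, h8⟩ := hn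
    refine ⟨by omega, h2, q, h3, ⟨h4, h5, Or.inl ⟨h2, h6, h7⟩⟩, ?_⟩
    unfold symbol
    rw [if_pos h2]
    exact h8
  · have h0 : min c c' * N ≤ c' * N := mul_le_mul_of_nonneg_right (min_le_right _ _) (by positivity)
    refine h0.trans ((h' N ((le_max_right _ _).trans hN)).trans ?_)
    rw [← Set.ncard_coe_finset]
    refine Nat.cast_le.2 (Set.ncard_le_ncard ?_ ((Set.finite_Iic N).subset fun n hn => hn.1))
    intro n hn
    rw [Finset.mem_coe, Finset.mem_filter, Finset.mem_range] at hn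
    obtain ⟨h1, h2, q, h3, h4, h5, h6, h7, h8⟩ := hn
    refine ⟨by omega, h2, q, h3, ⟨h4, h5, Or.inr ⟨h2, h6, h7⟩⟩, ?_⟩
    unfold symbol
    rw [if_neg (Nat.not_odd_iff_even.2 h2)]
    exact h8

end Pool.Agent.Results.MP_0ec261_nt.SmallPrimes
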